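import Mathlib
import Pool.Agent.Helper96.LB3.Stmts

/-!
LB3, row BND: the ratio is bounded.
-/

open MeasureTheory Module
open Pool.Agent.Helper96.LB3

namespace Pool.Agent.Helper56.LB3

section

variable {X ι : Type} [NormedAddCommGroup X] [NormedSpace ℝ X]

/-- Coordinates along the strips `T`. -/
noncomputable def cmap {n : ℕ} (φ : ι → X →ₗ[ℝ] ℝ) (T : Fin n → ι) : X →ₗ[ℝ] (Fin n → ℝ) :=
  LinearMap.pi (fun i => φ (T i))

theorem cmap_apply {n : ℕ} (φ : ι → X →ₗ[ℝ] ℝ) (T : Fin n → ι) (x : X) (i : Fin n) :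
    cmap φ T x i = φ (T i) x := rfl

variable [FiniteDimensional ℝ X] [Fintype ι]

theorem exists_good (φ : ι → X →ₗ[ℝ] ℝ) (hs : Sep φ) :
    ∃ T : Fin (finrank ℝ X) → ι, Function.Injective (cmap φ T) := by
  classical
  obtain ⟨b, hbs, hspan, hli⟩ := exists_linearIndependent ℝ (Set.range φ)
  have hfin : b.Finite := (Set.finite_range φ).subset hbs
  have : Fintype b := hfin.fintype
  have hker : ∀ x : X, (∀ f ∈ b, f x = 0) → x = 0 := by
    intro x hx
    apply hs
    intro u
    have hall : ∀ g : X →ₗ[ℝ] ℝ, g ∈ Submodule.span ℝ b → g x = 0 := by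
      intro g hg
      induction hg using Submodule.span_induction with
      | mem f hf => exact hx f hf
      | zero => rfl
      | add f g _ _ hf hg => rw [LinearMap.add_apply, hf, hg, add_zero]
      | smul a f _ hf => rw [LinearMap.smul_apply, hf, smul_zero]
    apply hall
    rw [hspan]
    exact Submodule.subset_span ⟨u, rfl⟩
  have hcard : Fintype.card b = finrank ℝ X := by
    apply le_antisymm
    · have h1 := hli.fintype_card_le_finrank
      have h2 : finrank ℝ (X →ₗ[ℝ] ℝ) = finrank ℝ X := Subspace.dual_finrank_eq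
      rw [h2] at h1
      exact h1
    · have hinj : Function.Injective
          (LinearMap.pi (fun f : b => (f : X →ₗ[ℝ] ℝ)) : X →ₗ[ℝ] (b → ℝ)) := by
        rw [← LinearMap.ker_eq_bot, LinearMap.ker_eq_bot']
        intro x hx
        apply hker
        intro f hf
        exact congrFun hx ⟨f, hf⟩
      have h1 := LinearMap.finrank_le_finrank_of_injective hinj
      rwa [Module.finrank_pi] at h1
  let e : Fin (finrank ℝ X) ≃ b := (Fintype.equivFinOfCardEq hcard).symm
  have hpre : ∀ i : Fin (finrank ℝ X), ∃ u : ι, φ u = (e i : X →ₗ[ℝ] ℝ) := fun i => hbs (e i).2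
  choose T hT using hpre
  refine ⟨T, ?_⟩
  rw [← LinearMap.ker_eq_bot, LinearMap.ker_eq_bot']
  intro x hx
  apply hker
  intro f hf
  have h1 := congrFun hx (e.symm ⟨f, hf⟩)
  rw [cmap_apply, hT, Equiv.apply_symm_apply] at h1
  exact h1

theorem box_vol [MeasurableSpace X] [BorelSpace X] (μ : Measure X) [μ.IsAddHaarMeasure]
    {n : ℕ} (Φ : X ≃ₗ[ℝ] (Fin n → ℝ)) (r : Fin n → ℝ) (hr : ∀ i, 0 < r i) :
    μ.real {x | ∀ i, |Φ x i| ≤ r i} = (∏ i, r i) * μ.real {x | ∀ i, |Φ x i| ≤ 1} := by
  classical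
  set D : (Fin n → ℝ) →ₗ[ℝ] (Fin n → ℝ) := Matrix.toLin' (Matrix.diagonal r) with hD
  set f : X →ₗ[ℝ] X := (Φ.symm : (Fin n → ℝ) →ₗ[ℝ] X) ∘ₗ D ∘ₗ (Φ : X →ₗ[ℝ] (Fin n → ℝ)) with hf
  have hDa : ∀ (y : Fin n → ℝ) (i : Fin n), D y i = r i * y i := by
    intro y i
    rw [hD, Matrix.toLin'_apply, Matrix.mulVec_diagonal]
  have hdet : LinearMap.det f = ∏ i, r i := by
    have h1 := LinearMap.det_conj D Φ.symm
    rw [LinearEquiv.symm_symm] at h1
    rw [hf, h1, hD, LinearMap.det_toLin', Matrix.det_diagonal]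
  have himg : {x | ∀ i, |Φ x i| ≤ r i} = f '' {x | ∀ i, |Φ x i| ≤ 1} := by
    ext x
    constructor
    · intro hx
      refine ⟨Φ.symm (fun i => Φ x i / r i), ?_, ?_⟩
      · intro i
        rw [LinearEquiv.apply_symm_apply, abs_div, abs_of_pos (hr i), div_le_one (hr i)]
        exact hx i
      · apply Φ.injective
        ext i
        simp only [hf, LinearMap.comp_apply, LinearEquiv.coe_coe, LinearEquiv.apply_symm_apply]
        rw [hDa]
        field_simp [(hr i).ne']
    · rintro ⟨y, hy, rfl⟩ i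
      simp only [hf, LinearMap.comp_apply, LinearEquiv.coe_coe, LinearEquiv.apply_symm_apply]
      rw [hDa, abs_mul, abs_of_pos (hr i)]
      have h2 := hy i
      have h3 := mul_le_mul_of_nonneg_left h2 (hr i).le
      linarith
  rw [measureReal_def, himg, Measure.addHaar_image_linearMap, hdet,
    abs_of_pos (Finset.prod_pos fun i _ => hr i), ENNReal.toReal_mul,
    ENNReal.toReal_ofReal (Finset.prod_pos fun i _ => hr i).le, ← measureReal_def]

theorem exists_equiv {n : ℕ} (hn : finrank ℝ X = n) (φ : ι → X →ₗ[ℝ] ℝ) (T : Fin n → ι)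
    (hT : Function.Injective (cmap φ T)) :
    ∃ Φ : X ≃ₗ[ℝ] (Fin n → ℝ), ∀ x i, Φ x i = φ (T i) x := by
  have hfr : finrank ℝ X = finrank ℝ (Fin n → ℝ) := by
    rw [Module.finrank_pi, Fintype.card_fin, hn]
  refine ⟨LinearEquiv.ofInjectiveOfFinrankEq (cmap φ T) hT hfr, ?_⟩
  intro x i
  rfl

theorem exists_coef {n : ℕ} (hn : finrank ℝ X = n) (φ : ι → X →ₗ[ℝ] ℝ) (T : Fin n → ι) (u : ι) :
    ∃ c : Fin n → ℝ, Function.Injective (cmap φ T) →
      ∀ x, φ u x = ∑ i, c i * φ (T i) x := by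
  classical
  by_cases hT : Function.Injective (cmap φ T)
  · obtain ⟨Φ, hΦ⟩ := exists_equiv hn φ T hT
    refine ⟨fun i => φ u (Φ.symm (Pi.single i 1)), fun _ x => ?_⟩
    have h1 : x = ∑ i, Φ x i • Φ.symm (Pi.single i (1 : ℝ)) := by
      apply Φ.injective
      rw [map_sum]
      ext j
      rw [Finset.sum_apply]
      simp only [map_smul, LinearEquiv.apply_symm_apply, Pi.smul_apply, smul_eq_mul,
        Pi.single_apply, mul_ite, mul_one, mul_zero]
      rw [Finset.sum_ite_eq Finset.univ j]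
      simp
    calc φ u x = φ u (∑ i, Φ x i • Φ.symm (Pi.single i (1 : ℝ))) := by rw [← h1]
      _ = ∑ i, φ u (Φ.symm (Pi.single i 1)) * φ (T i) x := by
          rw [map_sum]
          refine Finset.sum_congr rfl fun i _ => ?_
          rw [map_smul, smul_eq_mul, hΦ, mul_comm]
  · exact ⟨0, fun h => absurd h hT⟩

end

theorem st_BND : ST_BND := by
  classical
  intro X ι _ _ _ _ _ μ _ _ φ hs
  obtain ⟨d, hd⟩ : ∃ d, finrank ℝ X = d := ⟨_, rfl⟩
  obtain ⟨T0, hT0⟩ : ∃ T : Fin d → ι, Function.Injective (cmap φ T) := by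
    subst hd
    exact exists_good φ hs
  choose lam hlam using fun T : Fin d → ι => exists_coef hd φ T
  obtain ⟨Λ, hΛ1, hΛ⟩ : ∃ Λ : ℝ, 1 ≤ Λ ∧ ∀ T u i, |lam T u i| ≤ Λ := by
    refine ⟨1 + ∑ p : (Fin d → ι) × ι × Fin d, |lam p.1 p.2.1 p.2.2|, ?_, ?_⟩
    · have : 0 ≤ ∑ p : (Fin d → ι) × ι × Fin d, |lam p.1 p.2.1 p.2.2| :=
        Finset.sum_nonneg fun _ _ => abs_nonneg _
      linarith
    · intro T u i
      have h1 := Finset.single_le_sum
        (f := fun p : (Fin d → ι) × ι × Fin d => |lam p.1 p.2.1 p.2.2|)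
        (fun _ _ => abs_nonneg _) (Finset.mem_univ (T, u, i))
      simp only at h1
      linarith
  have hdpos : (0 : ℝ) < (d : ℝ) + 1 := by positivity
  have hΛ0 : 0 < Λ := lt_of_lt_of_le one_pos hΛ1
  obtain ⟨N, hN⟩ : ∃ N : ℝ, N = ((d : ℝ) + 1) * Λ := ⟨_, rfl⟩
  have hN0 : 0 < N := by rw [hN]; positivity
  refine ⟨N ^ (2 * d), ?_⟩
  intro hp hm hpp hmp
  set h : ι → ℝ := gm hp hm with hh
  have hpos : ∀ u, 0 < h u := fun u => Real.sqrt_pos.mpr (mul_pos (hpp u) (hmp u))
  have hsq : ∀ u, h u * h u = hp u * hm u := fun u =>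
    Real.mul_self_sqrt (mul_pos (hpp u) (hmp u)).le
  obtain ⟨T, hTm, hmin⟩ := Finset.exists_min_image
    (Finset.univ.filter fun T : Fin d → ι => Function.Injective (cmap φ T))
    (fun T => ∏ i, h (T i)) ⟨T0, Finset.mem_filter.mpr ⟨Finset.mem_univ _, hT0⟩⟩
  have hT : Function.Injective (cmap φ T) := (Finset.mem_filter.mp hTm).2
  have hexp : ∀ u x, φ u x = ∑ i, lam T u i * φ (T i) x := fun u x => hlam T u hT x
  have hexch : ∀ u i, lam T u i ≠ 0 → h (T i) ≤ h u := by
    intro u i hne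
    have hgood : Function.Injective (cmap φ (Function.update T i u)) := by
      rw [← LinearMap.ker_eq_bot, LinearMap.ker_eq_bot']
      intro x hx
      have hj : ∀ j, j ≠ i → φ (T j) x = 0 := by
        intro j hj
        have h1 := congrFun hx j
        rw [cmap_apply, Function.update_of_ne hj] at h1
        exact h1
      have hi : φ u x = 0 := by
        have h1 := congrFun hx i
        rw [cmap_apply, Function.update_self] at h1
        exact h1
      have hi2 : φ (T i) x = 0 := by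
        have h1 := hexp u x
        rw [hi, Finset.sum_eq_single i (fun j _ hji => by rw [hj j hji, mul_zero])
          (fun hni => absurd (Finset.mem_univ i) hni)] at h1
        rcases mul_eq_zero.mp h1.symm with h2 | h2
        · exact absurd h2 hne
        · exact h2
      have h0 : cmap φ T x = cmap φ T 0 := by
        rw [map_zero]
        ext j
        rw [cmap_apply]
        by_cases hji : j = i
        · rw [hji, hi2]; rfl
        · rw [hj j hji]; rfl
      exact hT h0
    have h1 := hmin (Function.update T i u) (Finset.mem_filter.mpr ⟨Finset.mem_univ _, hgood⟩)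
    rw [← Finset.mul_prod_erase Finset.univ (fun j => h (T j)) (Finset.mem_univ i),
      ← Finset.mul_prod_erase Finset.univ (fun j => h (Function.update T i u j))
        (Finset.mem_univ i)] at h1
    have h2 : ∏ j ∈ Finset.univ.erase i, h (Function.update T i u j) =
        ∏ j ∈ Finset.univ.erase i, h (T j) := by
      refine Finset.prod_congr rfl fun j hj => ?_
      rw [Function.update_of_ne (Finset.ne_of_mem_erase hj)]
    rw [h2, Function.update_self] at h1
    exact le_of_mul_le_mul_right h1 (Finset.prod_pos fun j _ => hpos _)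
  obtain ⟨Φ, hΦ⟩ := exists_equiv hd φ T hT
  have hboxfin : ∀ r : Fin d → ℝ, μ {x | ∀ i, |Φ x i| ≤ r i} < ⊤ := by
    intro r
    have hc : IsCompact (Φ.toContinuousLinearEquiv ⁻¹' (Set.Icc (fun i => -r i) r)) := by
      rw [← ContinuousLinearEquiv.image_symm_eq_preimage]
      exact (isCompact_Icc).image Φ.toContinuousLinearEquiv.symm.continuous
    refine lt_of_le_of_lt (measure_mono ?_) hc.measure_lt_top
    intro x hx
    refine ⟨fun i => ?_, fun i => ?_⟩
    · exact neg_le_of_abs_le (hx i)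
    · exact le_of_abs_le (hx i)
  have hsub : ∀ g : ι → ℝ, KS φ g ⊆ {x | ∀ i, |Φ x i| ≤ g (T i)} := by
    intro g x hx i
    rw [hΦ]
    exact hx (T i)
  obtain ⟨κ, hκ⟩ : ∃ κ, κ = μ.real {x | ∀ i, |Φ x i| ≤ 1} := ⟨_, rfl⟩
  have hκ0 : 0 ≤ κ := hκ ▸ measureReal_nonneg
  have hupper : ∀ g : ι → ℝ, (∀ u, 0 < g u) → VS μ φ g ≤ (∏ i, g (T i)) * κ := by
    intro g hg
    rw [hκ, ← box_vol μ Φ (fun i => g (T i)) (fun i => hg _)]
    exact measureReal_mono (hsub g) (hboxfin _).ne
  have hlower : (∏ i, h (T i)) / N ^ d * κ ≤ VS μ φ h := by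
    have h1 : (∏ i, h (T i)) / N ^ d = ∏ i, (h (T i) / N) := by
      rw [Finset.prod_div_distrib, Finset.prod_const, Finset.card_univ, Fintype.card_fin]
    rw [h1, hκ, ← box_vol μ Φ (fun i => h (T i) / N) (fun i => div_pos (hpos _) hN0)]
    refine measureReal_mono ?_ (lt_of_le_of_lt (measure_mono (hsub h)) (hboxfin _)).ne
    intro x hx u
    have hx' : ∀ i, |φ (T i) x| ≤ h (T i) / N := by
      intro i
      have := hx i
      rwa [hΦ] at this
    rw [hexp u x]
    calc |∑ i, lam T u i * φ (T i) x| ≤ ∑ i, |lam T u i * φ (T i) x| :=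
          Finset.abs_sum_le_sum_abs _ _
      _ ≤ ∑ _i : Fin d, h u / ((d : ℝ) + 1) := by
          refine Finset.sum_le_sum fun i _ => ?_
          by_cases hz : lam T u i = 0
          · rw [hz, zero_mul, abs_zero]
            exact (div_pos (hpos u) hdpos).le
          · rw [abs_mul]
            calc |lam T u i| * |φ (T i) x| ≤ Λ * (h (T i) / N) :=
                  mul_le_mul (hΛ T u i) (hx' i) (abs_nonneg _) hΛ0.le
              _ = h (T i) / ((d : ℝ) + 1) := by
                  rw [hN]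
                  field_simp
              _ ≤ h u / ((d : ℝ) + 1) := by
                  gcongr
                  exact hexch u i hz
      _ = (d : ℝ) * (h u / ((d : ℝ) + 1)) := by
          rw [Finset.sum_const, Finset.card_univ, Fintype.card_fin, nsmul_eq_mul]
      _ ≤ h u := by
          rw [← mul_div_assoc, div_le_iff₀ hdpos]
          nlinarith [hpos u]
  have hprod : (∏ i, h (T i)) ^ 2 = (∏ i, hp (T i)) * ∏ i, hm (T i) := by
    rw [sq, ← Finset.prod_mul_distrib, ← Finset.prod_mul_distrib]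
    exact Finset.prod_congr rfl fun i _ => hsq _
  have hNd : 0 < N ^ d := pow_pos hN0 d
  calc VS μ φ hp * VS μ φ hm ≤ ((∏ i, hp (T i)) * κ) * ((∏ i, hm (T i)) * κ) :=
        mul_le_mul (hupper hp hpp) (hupper hm hmp) measureReal_nonneg
          (mul_nonneg (Finset.prod_nonneg fun i _ => (hpp _).le) hκ0)
    _ = (∏ i, h (T i)) ^ 2 * κ ^ 2 := by rw [hprod]; ring
    _ = N ^ (2 * d) * ((∏ i, h (T i)) / N ^ d * κ) ^ 2 := by
        rw [pow_mul' N 2 d]
        field_simp
    _ ≤ N ^ (2 * d) * (VS μ φ h) ^ 2 := by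
        refine mul_le_mul_of_nonneg_left ?_ (pow_pos hN0 _).le
        refine pow_le_pow_left₀ ?_ hlower 2
        exact mul_nonneg (div_nonneg (Finset.prod_nonneg fun i _ => (hpos _).le) hNd.le) hκ0

end Pool.Agent.Helper56.LB3
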